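import Pool.Agent.helper90.FN.Spec

set_option autoImplicit false

open scoped BigOperators Topology
open Filter MeasureTheory

namespace Pool.Agent.helper90.FN

open Finset
open Pool.Agent.helper72.UT (IsFor dep pth rt fors Reg lz mem_fors)

variable {V : Type} [Fintype V] [DecidableEq V]

/-- rerooting a forest at a larger set -/
theorem G2_reroot {G : SimpleGraph V} {C D : Finset V} {f : V → V} (hf : f ∈ fors G C)
    (hCD : C ⊆ D) : glue D id f ∈ fors G D := by
  rw [mem_fors] at hf ⊢
  refine ⟨?_, ?_, ?_⟩
  · intro v hv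
    simp [glue, hv]
  · intro v hv
    have : glue D id f v = f v := by simp [glue, hv]
    rw [this]
    exact hf.adj v (fun h => hv (hCD h))
  · intro v
    refine hf.ind (P := fun v => ∃ k, (glue D id f)^[k] v ∈ D) ?_ ?_ v
    · intro v hv
      exact ⟨0, by simpa using hCD hv⟩
    · intro v hv ih
      by_cases hD : v ∈ D
      · exact ⟨0, by simpa using hD⟩
      · obtain ⟨k, hk⟩ := ih
        refine ⟨k + 1, ?_⟩
        have : glue D id f v = f v := by simp [glue, hD]
        rw [Function.iterate_succ_apply, this]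
        exact hk

theorem G2 (h1 : G1_stmt) : G2_stmt := by
  intro V _ _ G C D q hq hcl
  refine ⟨Finset.card_pos.2 ⟨_, G2_reroot hq hcl.sub⟩, ?_⟩
  intro F
  refine Finset.sum_nbij' (fun f => glue D id f) (fun g => glue D q g) ?_ ?_ ?_ ?_ ?_
  · intro f hf
    rw [Finset.mem_filter] at hf
    exact G2_reroot hf.1 hcl.sub
  · intro g hg
    rw [Finset.mem_filter]
    refine ⟨(h1 V G C D q g hq hcl hg).1, ?_⟩
    intro x hx
    simp [glue, hx]
  · intro f hf
    rw [Finset.mem_filter] at hf
    funext x
    by_cases hx : x ∈ D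
    · simp [glue, hx, hf.2 x hx]
    · simp [glue, hx]
  · intro g hg
    have hg' := mem_fors.1 hg
    funext x
    by_cases hx : x ∈ D
    · simp [glue, hx, hg'.fix x hx]
    · simp [glue, hx]
  · intro f hf
    rw [Finset.mem_filter] at hf
    congr 1
    funext x
    by_cases hx : x ∈ D
    · simp [glue, hx, hf.2 x hx]
    · simp [glue, hx]

end Pool.Agent.helper90.FN
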