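import Pool.Agent.helper90.FN.Spec

set_option autoImplicit false

open scoped BigOperators Topology
open Filter MeasureTheory

namespace Pool.Agent.helper90.FN

open Finset
open Pool.Agent.helper72.UT (IsFor dep pth rt fors Reg lz mem_fors)

theorem G3 (h2 : G2_stmt) : G3_stmt := by
  intro V _ _ G C R hR hS F
  classical
  unfold EF
  congr 1
  -- classes
  have hcls : ∀ f ∈ fors G C,
      (∑ g ∈ fors G (R f), F (glue (R f) f g)) / ((fors G (R f)).card : ℝ) =
      (∑ f' ∈ (fors G C).filter (fun f' => ∀ x ∈ R f, f' x = f x), F f') /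
        (((fors G C).filter (fun f' => ∀ x ∈ R f, f' x = f x)).card : ℝ) := by
    intro f hf
    obtain ⟨-, hs⟩ := h2 V G C (R f) f hf (hR f hf)
    have e1 := hs F
    have e2 := hs (fun _ => 1)
    simp only [Finset.sum_const, nsmul_eq_mul, mul_one] at e2
    rw [← e1, ← e2]
  have hsymm : ∀ f ∈ fors G C, ∀ f' ∈ fors G C, (∀ x ∈ R f, f' x = f x) →
      R f' = R f ∧ (∀ x ∈ R f', f x = f' x) ∧
      (fors G C).filter (fun g => ∀ x ∈ R f, g x = f x) =
        (fors G C).filter (fun g => ∀ x ∈ R f', g x = f' x) := by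
    intro f hf f' hf' h
    have e := hS f hf f' hf' h
    refine ⟨e, ?_, ?_⟩
    · intro x hx
      rw [e] at hx
      exact (h x hx).symm
    · apply Finset.filter_congr
      intro g _
      rw [e]
      constructor
      · intro hg x hx
        rw [hg x hx, h x hx]
      · intro hg x hx
        rw [hg x hx, h x hx]
  rw [Finset.sum_congr rfl hcls]
  have h3 : ∀ f ∈ fors G C,
      (∑ f' ∈ (fors G C).filter (fun f' => ∀ x ∈ R f, f' x = f x), F f') /
        (((fors G C).filter (fun f' => ∀ x ∈ R f, f' x = f x)).card : ℝ) =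
      ∑ f' ∈ fors G C, if (∀ x ∈ R f, f' x = f x) then
        F f' / (((fors G C).filter (fun g => ∀ x ∈ R f', g x = f' x)).card : ℝ) else 0 := by
    intro f hf
    rw [Finset.sum_div, Finset.sum_filter]
    apply Finset.sum_congr rfl
    intro f' hf'
    by_cases h : ∀ x ∈ R f, f' x = f x
    · rw [if_pos h, if_pos h, (hsymm f hf f' hf' h).2.2]
    · rw [if_neg h, if_neg h]
  rw [Finset.sum_congr rfl h3, Finset.sum_comm]
  apply Finset.sum_congr rfl
  intro f' hf'
  have h4 : ∀ f ∈ fors G C, (if (∀ x ∈ R f, f' x = f x) then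
        F f' / (((fors G C).filter (fun g => ∀ x ∈ R f', g x = f' x)).card : ℝ) else 0) =
      (if (∀ x ∈ R f', f x = f' x) then
        F f' / (((fors G C).filter (fun g => ∀ x ∈ R f', g x = f' x)).card : ℝ) else 0) := by
    intro f hf
    by_cases h : ∀ x ∈ R f, f' x = f x
    · rw [if_pos h, if_pos (hsymm f hf f' hf' h).2.1]
    · rw [if_neg h, if_neg]
      intro h5
      exact h (hsymm f' hf' f hf h5).2.1
  rw [Finset.sum_congr rfl h4, ← Finset.sum_filter, Finset.sum_const, nsmul_eq_mul]
  have hne : (((fors G C).filter (fun g => ∀ x ∈ R f', g x = f' x)).card : ℝ) ≠ 0 := by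
    have : 0 < ((fors G C).filter (fun g => ∀ x ∈ R f', g x = f' x)).card := by
      apply Finset.card_pos.2
      exact ⟨f', by rw [Finset.mem_filter]; exact ⟨hf', fun _ _ => rfl⟩⟩
    exact_mod_cast this.ne'
  rw [mul_div_cancel₀ _ hne]

end Pool.Agent.helper90.FN
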