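import Pool.Agent.helper90.FN.Spec

set_option autoImplicit false

open scoped BigOperators Topology
open Filter MeasureTheory

namespace Pool.Agent.helper90.FN

open Finset
open Pool.Agent.helper72.UT (IsFor dep pth rt fors Reg lz mem_fors pth_mem pth_not_mem rt_mem
  rt_not_mem dep_mem dep_not_mem)
open Pool.Agent.helper20.HP (ind HW W Par cc run lel lst lazyP tmix ustE height vol Setup CZ CP IsKer)

theorem HM_same {V : Type} [Fintype V] [DecidableEq V] {G : SimpleGraph V} {S R R' : Finset V}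
    {f f' : V → V} (hSR : S ⊆ R) (hf : f ∈ fors G R) (hf' : f' ∈ fors G R')
    (H : ∀ v, v ∉ R' → rt R' f' v ∈ S → v ∉ R ∧ f v = f' v ∧ rt R f v ∈ S) (v : V) :
    rt R' f' v ∈ S → pth R' f' v = pth R f v ∧ rt R' f' v = rt R f v ∧
      dep R' f' v = dep R f v := by
  have hF := mem_fors.1 hf
  have hF' := mem_fors.1 hf'
  refine hF'.ind (P := fun v => rt R' f' v ∈ S → pth R' f' v = pth R f v ∧
    rt R' f' v = rt R f v ∧ dep R' f' v = dep R f v) ?_ ?_ v
  · intro v hv h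
    rw [rt_mem hv] at h
    have h2 := hSR h
    rw [pth_mem hv, pth_mem h2, rt_mem hv, rt_mem h2, dep_mem hv, dep_mem h2]
    exact ⟨rfl, rfl, rfl⟩
  · intro v hv ih h
    obtain ⟨h1, h2, h3⟩ := H v hv h
    rw [rt_not_mem hv (hF'.hit v)] at h
    obtain ⟨i1, i2, i3⟩ := ih h
    rw [pth_not_mem hv (hF'.hit v), pth_not_mem h1 (hF.hit v), rt_not_mem hv (hF'.hit v),
      rt_not_mem h1 (hF.hit v), dep_not_mem hv (hF'.hit v), dep_not_mem h1 (hF.hit v), h2, i1, i2,
      i3]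
    exact ⟨rfl, rfl, rfl⟩

theorem HM : HM_stmt := by
  intro V _ _ G S R R' f f' ℓ r w b hb hSR hSR' hf hf' H
  classical
  have hF := mem_fors.1 hf
  have hF' := mem_fors.1 hf'
  unfold HB
  apply Finset.sum_le_sum
  intro x _
  have hnn : ∀ (B : Finset V) (g : V → V), 0 ≤ hx B ℓ r w g x := by
    intro B g
    unfold hx
    apply Finset.sum_nonneg
    intro v _
    unfold ind
    split_ifs <;> norm_num
  by_cases hx1 : x ∉ R' ∧ f' x ∈ S
  · have hr : rt R' f' x = f' x := by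
      rw [rt_not_mem hx1.1 (hF'.hit x), rt_mem (hSR' hx1.2)]
    have hrS : rt R' f' x ∈ S := by rw [hr]; exact hx1.2
    obtain ⟨k1, k2, k3⟩ := H x hx1.1 hrS
    have hx2 : x ∉ R ∧ f x ∈ S := ⟨k1, by rw [k2]; exact hx1.2⟩
    have e1 : ind (x ∉ R' ∧ f' x ∈ S) = 1 := if_pos hx1
    have e2 : ind (x ∉ R ∧ f x ∈ S) = 1 := if_pos hx2
    rw [e1, e2, one_mul, one_mul]
    apply min_le_min_right
    unfold hx
    apply Finset.sum_le_sum
    intro v _
    by_cases hv : x ∈ pth R' f' v ∧ r ≤ lv R' ℓ f' v ∧ lv R' ℓ f' v < r + w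
    · have hvS : rt R' f' v ∈ S := by
        rw [← hF'.rt_of_mem_pth v x hv.1]; exact hrS
      obtain ⟨j1, j2, j3⟩ := HM_same hSR hf hf' H v hvS
      have hv2 : x ∈ pth R f v ∧ r ≤ lv R ℓ f v ∧ lv R ℓ f v < r + w := by
        unfold lv at hv ⊢
        rw [← j1, ← j2, ← j3]
        exact hv
      have e3 : ind (x ∈ pth R' f' v ∧ r ≤ lv R' ℓ f' v ∧ lv R' ℓ f' v < r + w) = 1 := if_pos hv
      have e4 : ind (x ∈ pth R f v ∧ r ≤ lv R ℓ f v ∧ lv R ℓ f v < r + w) = 1 := if_pos hv2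
      rw [e3, e4]
    · have e3 : ind (x ∈ pth R' f' v ∧ r ≤ lv R' ℓ f' v ∧ lv R' ℓ f' v < r + w) = 0 := if_neg hv
      rw [e3]
      unfold ind
      split_ifs <;> norm_num
  · have e1 : ind (x ∉ R' ∧ f' x ∈ S) = 0 := if_neg hx1
    rw [e1, zero_mul]
    apply mul_nonneg
    · unfold ind
      split_ifs <;> norm_num
    · exact le_min (hnn _ _) hb

end Pool.Agent.helper90.FN
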