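import Pool.Agent.helper90.FN.Spec

set_option autoImplicit false

open scoped BigOperators Topology
open Filter MeasureTheory

namespace Pool.Agent.helper90.FN

open Finset

theorem OU_exp {x : ℝ} (h0 : 0 ≤ x) (h1 : x ≤ 1) : Real.exp x - 1 ≤ x + x ^ 2 := by
  have h := Real.exp_bound' h0 h1 (n := 2) (by norm_num)
  simp [Finset.sum_range_succ] at h
  nlinarith [sq_nonneg x]

theorem OU : OU_stmt := by
  intro ι s p X Φ b hp hsum hb hΦ hK lam hlam hlb
  set K : ℝ → ℝ := fun t => ∑ i ∈ s, p i * Real.exp (t * X i) with hKd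
  have hdK : ∀ t, HasDerivAt K (∑ i ∈ s, p i * (X i * Real.exp (t * X i))) t := by
    intro t
    have : ∀ i ∈ s, HasDerivAt (fun t => p i * Real.exp (t * X i))
        (p i * (X i * Real.exp (t * X i))) t := by
      intro i _
      have h1 : HasDerivAt (fun t : ℝ => t * X i) (X i) t := by
        simpa using (hasDerivAt_id t).mul_const (X i)
      have h2 := (h1.exp).const_mul (p i)
      have e : p i * (X i * Real.exp (t * X i)) = p i * (Real.exp (t * X i) * X i) := by ring
      rw [e]
      exact h2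
    have h3 := HasDerivAt.fun_sum this
    exact h3
  have hKnn : ∀ t, 0 ≤ K t := by
    intro t
    apply Finset.sum_nonneg
    intro i hi
    exact mul_nonneg (hp i hi) (Real.exp_pos _).le
  set g : ℝ → ℝ := fun t => K t * Real.exp (-(Φ * ((Real.exp (t * b) - 1) / b))) with hg
  have hdg : ∀ t, HasDerivAt g ((∑ i ∈ s, p i * (X i * Real.exp (t * X i))) *
      Real.exp (-(Φ * ((Real.exp (t * b) - 1) / b))) +
      K t * (Real.exp (-(Φ * ((Real.exp (t * b) - 1) / b))) * (-(Φ * Real.exp (t * b))))) t := by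
    intro t
    have h1 : HasDerivAt (fun t : ℝ => t * b) b t := by
      simpa using (hasDerivAt_id t).mul_const b
    have h2 := (((h1.exp).sub_const 1).div_const b).const_mul Φ
    have h3 : HasDerivAt (fun t => -(Φ * ((Real.exp (t * b) - 1) / b)))
        (-(Φ * Real.exp (t * b))) t := by
      have e : Φ * (Real.exp (t * b) * b / b) = Φ * Real.exp (t * b) := by
        rw [mul_div_cancel_right₀ _ hb.ne']
      rw [← e]
      exact h2.neg
    exact (hdK t).mul h3.exp
  have hanti : AntitoneOn g (Set.Ici 0) := by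
    apply antitoneOn_of_deriv_nonpos (convex_Ici 0)
    · exact fun t _ => (hdg t).continuousAt.continuousWithinAt
    · exact fun t _ => (hdg t).differentiableAt.differentiableWithinAt
    · intro t ht
      rw [interior_Ici, Set.mem_Ioi] at ht
      rw [(hdg t).deriv]
      have h1 := hK t ht.le
      have h2 : 0 < Real.exp (-(Φ * ((Real.exp (t * b) - 1) / b))) := Real.exp_pos _
      have h3 : (∑ i ∈ s, p i * (X i * Real.exp (t * X i))) *
          Real.exp (-(Φ * ((Real.exp (t * b) - 1) / b))) ≤
          (Φ * Real.exp (t * b) * K t) * Real.exp (-(Φ * ((Real.exp (t * b) - 1) / b))) :=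
        mul_le_mul_of_nonneg_right h1 h2.le
      nlinarith
  have hle := hanti (Set.mem_Ici.2 le_rfl) (Set.mem_Ici.2 hlam) hlam
  have hg0 : g 0 = 1 := by
    simp [hg, hKd, hsum]
  rw [hg0] at hle
  have h4 : K lam ≤ Real.exp (Φ * ((Real.exp (lam * b) - 1) / b)) := by
    have h5 : g lam = K lam * (Real.exp (Φ * ((Real.exp (lam * b) - 1) / b)))⁻¹ := by
      rw [hg, ← Real.exp_neg]
    rw [h5, ← div_eq_mul_inv, div_le_one (Real.exp_pos _)] at hle
    exact hle
  refine h4.trans (Real.exp_le_exp.2 ?_)
  have h6 := OU_exp (mul_nonneg hlam hb.le) hlb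
  have h7 : (Real.exp (lam * b) - 1) / b ≤ lam + lam ^ 2 * b := by
    rw [div_le_iff₀ hb]
    nlinarith
  nlinarith [mul_le_mul_of_nonneg_left h7 hΦ]

end Pool.Agent.helper90.FN
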